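import Pool.Agent.FHQ.StmtsO

/-!
# Squad FHQ, row OC1: the case that some `i₀ ∈ V` is not in `I`
-/

open scoped BigOperators

noncomputable section

namespace Pool.Agent.FHQ.H14

open Pool.Agent.FHQ

section sm

variable {p : ℕ} {K : Type} [Field K] (A : AcF0 p K)

/-- zero or of valuation larger than `g` -/
def Sm (g : ℤ) (y : K) : Prop := y = 0 ∨ g < A.v y

theorem ac_neg_one : A.ac (-1) * A.ac (-1) = A.ac 1 := by
  rw [← A.ac_mul, neg_one_mul, neg_neg]

theorem v_one : A.v 1 = 0 := by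
  have h := A.v_mul 1 1 one_ne_zero one_ne_zero
  rw [mul_one] at h
  omega

theorem v_neg_one : A.v (-1) = 0 := by
  have h := A.v_mul (-1) (-1) (neg_ne_zero.2 one_ne_zero) (neg_ne_zero.2 one_ne_zero)
  rw [neg_one_mul, neg_neg, v_one] at h
  omega

theorem v_neg (y : K) : A.v (-y) = A.v y := by
  by_cases hy : y = 0
  · rw [hy, neg_zero]
  · rw [← neg_one_mul, A.v_mul _ _ (neg_ne_zero.2 one_ne_zero) hy, v_neg_one, zero_add]

theorem Sm.neg {g : ℤ} {y : K} (h : Sm A g y) : Sm A g (-y) := by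
  rcases h with h | h
  · exact Or.inl (by rw [h, neg_zero])
  · exact Or.inr (by rw [v_neg]; exact h)

theorem Sm.add {g : ℤ} {y z : K} (hy : Sm A g y) (hz : Sm A g z) : Sm A g (y + z) := by
  by_cases hy0 : y = 0
  · rw [hy0, zero_add]
    exact hz
  by_cases hz0 : z = 0
  · rw [hz0, add_zero]
    exact hy
  have hy1 : g < A.v y := hy.resolve_left hy0
  have hz1 : g < A.v z := hz.resolve_left hz0
  rcases lt_trichotomy (A.v y) (A.v z) with h | h | h
  · right
    rw [(A.add_lt y z hy0 hz0 h).1]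
    exact hy1
  · by_cases h2 : A.ac y + A.ac z = 0
    · rcases A.add_gt y z hy0 hz0 h h2 with h3 | h3
      · exact Or.inl h3
      · exact Or.inr (lt_trans hy1 h3)
    · right
      rw [(A.add_eq y z hy0 hz0 h h2).1]
      exact hy1
  · right
    rw [add_comm, (A.add_lt z y hz0 hy0 h).1]
    exact hz1

theorem Sm.sub {g : ℤ} {y z : K} (hy : Sm A g y) (hz : Sm A g z) : Sm A g (y - z) := by
  rw [sub_eq_add_neg]
  exact hy.add A (hz.neg A)

/-- adding a small element does not change `rv` -/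
theorem add_small {w u : K} (hw : w ≠ 0) (hu : Sm A (A.v w) u) :
    w + u ≠ 0 ∧ A.v (w + u) = A.v w ∧ A.ac (w + u) = A.ac w := by
  by_cases hu0 : u = 0
  · rw [hu0, add_zero]
    exact ⟨hw, rfl, rfl⟩
  · have h := A.add_lt w u hw hu0 (hu.resolve_left hu0)
    refine ⟨fun h1 => ?_, h.1, h.2⟩
    have h2 : A.ac (w + u) = 0 := (A.ac_zero _).2 h1
    rw [h.2] at h2
    exact hw ((A.ac_zero _).1 h2)

end sm

theorem oc1 (CHN : ChnStmt) : Oc1Stmt := by
  intro D n' p _ K _ A I V P x γ hG hM hV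
  obtain ⟨i₀, hi₀, hi₀I⟩ := hV
  obtain ⟨i, hi⟩ := hG.ne
  classical
  obtain ⟨ω, hω⟩ := Finite.exists_max γ
  refine ⟨i, fun _ => Fin.castSucc, fun _ => Fin.castSucc_injective _, x ω, fun η => ?_⟩
  have h1 : ∀ η' : Fin D → Fin (n' + 1), η' i₀ < Fin.last n' → x ω ∈ (P i η').set A := by
    intro η' hη'
    let ζ : Fin D → Fin (n' + 1) := Function.update η' i₀ (Fin.last n')
    have hζ0 : ζ i₀ = Fin.last n' := Function.update_self _ _ _
    have hζ1 : ∀ j, j ≠ i₀ → η' j = ζ j := fun j hj => (Function.update_of_ne hj _ _).symm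
    have hγ : γ η' < γ ζ := hM.up i₀ hi₀ η' ζ hζ1 (by rw [hζ0]; exact hη')
    have hP : P i₀ η' = P i₀ ζ := hG.ind i₀ η' ζ hζ1
    have ha : Sm A.toAcF0 (γ η') (x η' - (P i₀ ζ).c) := by
      rcases hG.gt i₀ hi₀I η' with h | h
      · rw [hP] at h
        exact Or.inl (sub_eq_zero.2 h)
      · rw [hP] at h
        exact Or.inr h
    have hb : Sm A.toAcF0 (γ η') (x ζ - (P i₀ ζ).c) := by
      rcases hG.gt i₀ hi₀I ζ with h | h
      · exact Or.inl (sub_eq_zero.2 h)
      · exact Or.inr (lt_trans hγ h)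
    have hc : Sm A.toAcF0 (γ η') (x ω - x ζ) := by
      have h := CHN p K A D (n' + 1) I V P x γ hG hM ζ ω
      rw [min_eq_left (hω ζ)] at h
      rcases h with h | h
      · exact Or.inl (sub_eq_zero.2 h)
      · exact Or.inr (lt_of_lt_of_le hγ h)
    have hd : Sm A.toAcF0 (γ η') (x ω - x η') := by
      have h : x ω - x η' = (x ω - x ζ) + ((x ζ - (P i₀ ζ).c) - (x η' - (P i₀ ζ).c)) := by ring
      rw [h]
      exact hc.add _ (hb.sub _ ha)
    obtain ⟨he1, he2⟩ := hG.eq i hi η'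
    have hw : x η' - (P i η').c ≠ 0 := sub_ne_zero.2 he1
    have hd' : Sm A.toAcF0 (A.toAcF0.v (x η' - (P i η').c)) (x ω - x η') := by
      rw [he2]
      exact hd
    obtain ⟨f1, f2, f3⟩ := add_small A.toAcF0 hw hd'
    have hsum : x η' - (P i η').c + (x ω - x η') = x ω - (P i η').c := by ring
    rw [hsum] at f1 f2 f3
    have hmem := hG.mem i η'
    rcases hmem with h | h
    · exact absurd h.1 he1
    · right
      refine ⟨sub_ne_zero.1 f1, ?_⟩
      have hX := h.2
      show (P i η').X (A.toAcF0.ac (x ω - (P i η').c)) (A.toAcF0.v (x ω - (P i η').c))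
      rw [f2, f3]
      exact hX
  exact h1 _ (Fin.castSucc_lt_last _)

end Pool.Agent.FHQ.H14
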