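import Pool.Agent.FHQ.StmtsU

/-!
# Squad FHQ, row XT1: a finite number of conditions can be satisfied with a positive proportion of
the values of `z x`
-/

open scoped BigOperators

noncomputable section

namespace Pool.Agent.FHQ.H14

open Polynomial Pool.Agent.FHQ

section general

theorem ev_eq {k : Type} [Field k] (x t : k) (F : k[X][X]) :
    ev x t F = eval₂RingHom (evalRingHom x) t F := rfl

theorem ev_mul {k : Type} [Field k] (x t : k) (F G : k[X][X]) :
    ev x t (F * G) = ev x t F * ev x t G := by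
  rw [ev_eq, ev_eq, ev_eq, map_mul]

theorem ev_add {k : Type} [Field k] (x t : k) (F G : k[X][X]) :
    ev x t (F + G) = ev x t F + ev x t G := by
  rw [ev_eq, ev_eq, ev_eq, map_add]

theorem ev_sub {k : Type} [Field k] (x t : k) (F G : k[X][X]) :
    ev x t (F - G) = ev x t F - ev x t G := by
  rw [ev_eq, ev_eq, ev_eq, map_sub]

theorem ev_C {k : Type} [Field k] (x t : k) (a : k[X]) : ev x t (C a) = a.eval x := by
  unfold ev
  rw [eval₂_C, coe_evalRingHom]

/-- an algebraically closed subfield -/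
theorem closed_sub {L : Type} [Field L] [IsAlgClosed L] (K : Subfield L)
    (hK : ∀ a : L, IsAlgebraic K a → a ∈ K) : IsAlgClosed K := by
  apply IsAlgClosed.of_exists_root
  intro P hP hI
  have hd : (P.map (algebraMap K L)).degree ≠ 0 := by
    rw [degree_map]
    exact (degree_pos_of_irreducible hI).ne'
  obtain ⟨a, ha⟩ := IsAlgClosed.exists_root (P.map (algebraMap K L)) hd
  have ha2 : aeval a P = 0 := by
    rw [IsRoot.def, eval_map] at ha
    rw [aeval_def]
    exact ha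
  have hal : IsAlgebraic K a := ⟨P, hI.ne_zero, ha2⟩
  refine ⟨⟨a, hK a hal⟩, ?_⟩
  have hinj : Function.Injective (algebraMap K L) := (algebraMap K L).injective
  apply hinj
  rw [map_zero]
  have h1 : algebraMap K L (P.eval (⟨a, hK a hal⟩ : K)) =
      eval₂ (algebraMap K L) ((algebraMap K L) (⟨a, hK a hal⟩ : K)) P := by
    rw [eval₂_at_apply]
  rw [h1]
  rw [aeval_def] at ha2
  exact ha2

/-- irreducibility along an isomorphism -/
theorem irr_equiv {A B : Type} [Field A] [Field B] (e : A ≃+* B) (h : A[X][X])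
    (hI : Irreducible h) : Irreducible (h.map (mapRingHom (e : A →+* B))) := by
  have h1 : h.map (mapRingHom (e : A →+* B)) = Polynomial.mapEquiv (Polynomial.mapEquiv e) h := by
    ext a b
    simp [Polynomial.mapEquiv]
  rw [h1]
  exact (MulEquiv.irreducible_iff (Polynomial.mapEquiv (Polynomial.mapEquiv e))).2 hI

end general

section main

variable (p : ℕ → ℕ) [∀ i, Fact (p i).Prime] (U : Ultrafilter ℕ)

theorem lift_CC (hB : BasStmt) (hp : ∀ n : ℕ, ∀ᶠ i in (U : Filter ℕ), n ≤ p i)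
    (c : ∀ i, ZMod (p i)) (e : UF p U) (he : emb p U c = e) :
    Lift p U (fun i => C (C (c i))) (C (C e)) := by
  obtain ⟨-, -, -, -, -, e1, e0, -⟩ := hB p U hp
  refine ⟨⟨0, fun i => ⟨?_, fun b => ?_⟩⟩, fun a b => ?_⟩
  · simp
  · rw [coeff_C]
    split_ifs <;> simp
  · by_cases hb : b = 0
    · subst hb
      simp only [coeff_C_zero]
      by_cases ha : a = 0
      · subst ha
        simp only [coeff_C_zero]
        exact he
      · simp only [coeff_C_of_ne_zero ha]
        exact e0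
    · simp only [coeff_C_of_ne_zero hb, coeff_zero]
      exact e0

theorem lift_CX (hB : BasStmt) (hp : ∀ n : ℕ, ∀ᶠ i in (U : Filter ℕ), n ≤ p i) :
    Lift p U (fun _ => C X) (C X) := by
  obtain ⟨-, -, -, -, -, e1, e0, -⟩ := hB p U hp
  refine ⟨⟨1, fun i => ⟨?_, fun b => ?_⟩⟩, fun a b => ?_⟩
  · simp
  · rw [coeff_C]
    split_ifs <;> simp
  · by_cases hb : b = 0
    · subst hb
      simp only [coeff_C_zero]
      by_cases ha : a = 1
      · subst ha
        simp only [coeff_X_one]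
        exact e1
      · simp only [coeff_X_of_ne_one ha]
        exact e0
    · simp only [coeff_C_of_ne_zero hb, coeff_zero]
      exact e0

theorem lift_one (hB : BasStmt) (hp : ∀ n : ℕ, ∀ᶠ i in (U : Filter ℕ), n ≤ p i) :
    Lift p U (fun i => (1 : (ZMod (p i))[X][X])) 1 := by
  have h := lift_CC p U hB hp 1 1 (hB p U hp).2.2.2.2.2.1
  have h2 : (fun i => C (C ((1 : ∀ i, ZMod (p i)) i))) =
      (fun i => (1 : (ZMod (p i))[X][X])) := by
    funext i
    simp
  have h3 : (C (C (1 : UF p U))) = (1 : (UF p U)[X][X]) := by simp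
  rw [h2, h3] at h
  exact h

/-- two lifts of the same polynomial agree almost everywhere -/
theorem lift_unique (hL : LftStmt) (hB : BasStmt)
    (hp : ∀ n : ℕ, ∀ᶠ i in (U : Filter ℕ), n ≤ p i) (G : (UF p U)[X][X])
    (G1 G2 : ∀ i, (ZMod (p i))[X][X]) (h1 : Lift p U G1 G) (h2 : Lift p U G2 G) :
    ∀ᶠ i in (U : Filter ℕ), G1 i = G2 i := by
  have h3 := ((hL p U hp).2.2.1 G2 G (fun i => 1) 1 G1 G h2 (lift_one p U hB hp) h1).1
    (by rw [mul_one])
  exact h3.mono fun i hi => by rw [hi, mul_one]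

/-- a lift of a polynomial constant in `T` -/
theorem lift_const (hL : LftStmt) (hB : BasStmt)
    (hp : ∀ n : ℕ, ∀ᶠ i in (U : Filter ℕ), n ≤ p i) (D : (UF p U)[X])
    (D' : ∀ i, (ZMod (p i))[X][X]) (h : Lift p U D' (C D)) :
    ∀ᶠ i in (U : Filter ℕ), D' i = C ((D' i).coeff 0) := by
  apply lift_unique p U hL hB hp (C D) D' _ h
  obtain ⟨B, hBd⟩ := h.bd
  refine ⟨⟨B, fun i => ⟨?_, fun b => ?_⟩⟩, fun a b => ?_⟩
  · rw [natDegree_C]; exact Nat.zero_le _
  · rw [coeff_C]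
    split_ifs
    · exact (hBd i).2 0
    · rw [natDegree_zero]; exact Nat.zero_le _
  · by_cases hb : b = 0
    · subst hb
      simp only [coeff_C_zero]
      have := h.co a 0
      rw [coeff_C_zero] at this
      exact this
    · simp only [coeff_C_of_ne_zero hb, coeff_zero]
      exact (hB p U hp).2.2.2.2.2.2.1

/-- the transport of constants -/
def tau {K1 K2 : Subfield (UF p U)} (θ : K1 ≃+* K2) :
    ↥(K1 ⊓ fixs (Ph p U)) →+* UF p U :=
  K2.subtype.comp ((θ : K1 →+* K2).comp (Subfield.inclusion inf_le_left))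

theorem tau_apply {K1 K2 : Subfield (UF p U)} (θ : K1 ≃+* K2) (e : ↥(K1 ⊓ fixs (Ph p U))) :
    tau p U θ e = θ ⟨(e : UF p U), e.2.1⟩ := rfl

theorem tau_fix {K1 K2 : Subfield (UF p U)} (θ : K1 ≃+* K2) (hPI : PI p U K1 K2 θ)
    (e : ↥(K1 ⊓ fixs (Ph p U))) : Ph p U (tau p U θ e) = tau p U θ e := by
  rw [tau_apply]
  obtain ⟨h, hh⟩ := hPI.st ⟨(e : UF p U), e.2.1⟩
  rw [← hh]
  have h1 : Ph p U (e : UF p U) = e := e.2.2
  congr 2
  exact Subtype.ext h1

theorem tau_poly_fix {K1 K2 : Subfield (UF p U)} (θ : K1 ≃+* K2) (hPI : PI p U K1 K2 θ)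
    (G : (↥(K1 ⊓ fixs (Ph p U)))[X][X]) (a b : ℕ) :
    Ph p U (((G.map (mapRingHom (tau p U θ))).coeff b).coeff a) =
      ((G.map (mapRingHom (tau p U θ))).coeff b).coeff a := by
  rw [coeff_map, coe_mapRingHom, coeff_map]
  exact tau_fix p U θ hPI _

/-- relations between functions are transported to almost all places -/
theorem relation (hL : LftStmt) (hp : ∀ n : ℕ, ∀ᶠ i in (U : Filter ℕ), n ≤ p i)
    {E : Type} [Field E] (ι τ : E →+* UF p U) (x γ : UF p U) (h : E[X][X])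
    (hh : ∀ G : E[X][X], ev x γ (G.map (mapRingHom ι)) = 0 → h ∣ G)
    (Lf : E[X][X] → ∀ i, (ZMod (p i))[X][X])
    (hLf : ∀ G, Lift p U (Lf G) (G.map (mapRingHom τ))) (G1 G2 : E[X][X])
    (h12 : ev x γ (G1.map (mapRingHom ι)) = ev x γ (G2.map (mapRingHom ι))) :
    ∀ᶠ i in (U : Filter ℕ), ∀ x' t : ZMod (p i), ev x' t (Lf h i) = 0 →
      ev x' t (Lf G1 i) = ev x' t (Lf G2 i) := by
  obtain ⟨Q, hQ⟩ : h ∣ G1 - G2 := by
    apply hh
    rw [Polynomial.map_sub, ev_sub, h12, sub_self]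
  have e1 : G1 = G2 + h * Q := by rw [← hQ]; ring
  have hA := ((hL p U hp).2.2.1 (Lf h) _ (Lf Q) _ (Lf (h * Q)) _ (hLf h) (hLf Q) (hLf (h * Q))).1
    (by rw [Polynomial.map_mul])
  have hB := ((hL p U hp).2.2.1 (Lf G2) _ (Lf (h * Q)) _ (Lf (G2 + h * Q)) _ (hLf G2)
    (hLf (h * Q)) (hLf (G2 + h * Q))).2 (by rw [Polynomial.map_add])
  filter_upwards [hA, hB] with i hi1 hi2 x' t h0
  rw [e1, hi2, hi1, ev_add, ev_mul, h0, zero_mul, add_zero]

end main

/-- the elements which occur in a condition -/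
def els {L : Type} [Field L] {H E : Subfield L} (hEH : E ≤ H) : CI H E → List H
  | CI.add a b => [a, b, a + b]
  | CI.mul a b => [a, b, a * b]
  | CI.con e => [⟨(e : L), hEH e.2⟩]

theorem core (hL : LftStmt) (hW : WtrStmt) (hB : BasStmt)
    (p : ℕ → ℕ) [∀ i, Fact (p i).Prime] (U : Ultrafilter ℕ)
    (hp : ∀ n : ℕ, ∀ᶠ i in (U : Filter ℕ), n ≤ p i)
    (E H : Subfield (UF p U)) (hEH : E ≤ H) (τ : E →+* UF p U)
    (hτf : ∀ e, Ph p U (τ e) = τ e) (ρ : E → ∀ i, ZMod (p i)) (hρ : ∀ e, emb p U (ρ e) = τ e)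
    (x : UF p U) (hx : x ∈ H) (Cs : List (CI H E)) (ls : List H)
    (hls : ls = ⟨x, hx⟩ :: Cs.flatMap (els hEH))
    (h : E[X][X]) (D : E[X]) (s : Fin ls.length → E[X][X]) (γ : UF p U)
    (hm : h.Monic) (hd : 0 < h.natDegree) (hD : D ≠ 0)
    (hs : ∀ j, (D.map E.subtype).eval x * (ls.get j : UF p U) =
      ev x γ ((s j).map (mapRingHom E.subtype)))
    (hirr2 : Irreducible (h.map (mapRingHom τ)))
    (hdiv : ∀ G : E[X][X], ev x γ (G.map (mapRingHom E.subtype)) = 0 → h ∣ G) :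
    ∃ c : ℕ, ∀ᶠ i in (U : Filter ℕ), p i ≤ c * {x' : ZMod (p i) |
      ∃ z : H → ZMod (p i), z ⟨x, hx⟩ = x' ∧ ∀ C ∈ Cs, CO p H E hEH ρ i z C}.ncard := by
  classical
  -- the functions
  have hSp : ∀ a : H, ∃ P : E[X][X], a ∈ ls →
      (D.map E.subtype).eval x * (a : UF p U) = ev x γ (P.map (mapRingHom E.subtype)) := by
    intro a
    by_cases ha : a ∈ ls
    · obtain ⟨j, hj⟩ := List.get_of_mem ha
      exact ⟨s j, fun _ => by rw [← hs j, hj]⟩
    · exact ⟨0, fun h => absurd h ha⟩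
  choose Sp hSp using hSp
  -- the lifts
  have hLf : ∀ G : E[X][X], ∃ G', Lift p U G' (G.map (mapRingHom τ)) := fun G =>
    (hL p U hp).1 _ (fun a b => by
      rw [coeff_map, coe_mapRingHom, coeff_map]
      exact hτf _)
  choose Lf hLf using hLf
  -- the transported curve
  have hτi : Function.Injective τ := τ.injective
  have hd2 : 0 < (h.map (mapRingHom τ)).natDegree := by
    rw [hm.natDegree_map]
    exact hd
  obtain ⟨c, hc⟩ := hW p U hp (Lf h) _ (hLf h) (hm.map _) hd2 hirr2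
  -- the denominator
  set d : ∀ i, (ZMod (p i))[X] := fun i => (Lf (C D) i).coeff 0 with hdd
  have hCD : Lift p U (Lf (C D)) (C (D.map τ)) := by
    have := hLf (C D)
    rw [Polynomial.map_C, coe_mapRingHom] at this
    exact this
  have hd1 : ∀ᶠ i in (U : Filter ℕ), Lf (C D) i = C (d i) :=
    lift_const p U hL hB hp (D.map τ) _ hCD
  have hd0 : ∀ᶠ i in (U : Filter ℕ), Lf (C D) i ≠ 0 := by
    apply (hL p U hp).2.2.2.2 _ _ hCD
    rw [Ne, C_eq_zero]
    exact (Polynomial.map_ne_zero_iff hτi).2 hD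
  obtain ⟨B, hBd⟩ := (hLf (C D)).bd
  -- the relations
  have hrel := fun G1 G2 h12 => relation p U hL hp E.subtype τ x γ h hdiv Lf hLf G1 G2 h12
  have hevx : ∀ G : E[X], ev x γ ((C G).map (mapRingHom E.subtype)) = (G.map E.subtype).eval x := by
    intro G
    rw [Polynomial.map_C, coe_mapRingHom, ev_C]
  have hmulE : ∀ G1 G2 : E[X][X], ∀ᶠ i in (U : Filter ℕ), Lf (G1 * G2) i = Lf G1 i * Lf G2 i :=
    fun G1 G2 => ((hL p U hp).2.2.1 (Lf G1) _ (Lf G2) _ (Lf (G1 * G2)) _ (hLf G1) (hLf G2)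
      (hLf (G1 * G2))).1 (by rw [Polynomial.map_mul])
  have haddE : ∀ G1 G2 : E[X][X], ∀ᶠ i in (U : Filter ℕ), Lf (G1 + G2) i = Lf G1 i + Lf G2 i :=
    fun G1 G2 => ((hL p U hp).2.2.1 (Lf G1) _ (Lf G2) _ (Lf (G1 + G2)) _ (hLf G1) (hLf G2)
      (hLf (G1 + G2))).2 (by rw [Polynomial.map_add])
  -- the functions `z`
  let z : ∀ i, ZMod (p i) → ZMod (p i) → H → ZMod (p i) := fun i x' t a =>
    ev x' t (Lf (Sp a) i) / (d i).eval x'
  have hz : ∀ i x' t a, z i x' t a = ev x' t (Lf (Sp a) i) / (d i).eval x' := fun _ _ _ _ => rfl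
  -- the value at `x`
  have hX : ∀ᶠ i in (U : Filter ℕ), ∀ x' t : ZMod (p i), ev x' t (Lf h i) = 0 →
      (d i).eval x' ≠ 0 → z i x' t ⟨x, hx⟩ = x' := by
    have h1 := hrel (Sp ⟨x, hx⟩) (C D * C X) (by
      rw [← hSp ⟨x, hx⟩ (by rw [hls]; exact List.mem_cons_self), Polynomial.map_mul, ev_mul,
        hevx, hevx, map_X, eval_X])
    have h2 := hmulE (C D) (C X)
    have h3 : ∀ᶠ i in (U : Filter ℕ), Lf (C X) i = C X := by
      apply lift_unique p U hL hB hp (C X) _ _ _ (lift_CX p U hB hp)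
      have := hLf (C X)
      rw [Polynomial.map_C, coe_mapRingHom, map_X] at this
      exact this
    filter_upwards [h1, h2, h3, hd1] with i g1 g2 g3 g4 x' t h0 hne
    rw [hz, g1 x' t h0, g2, g3, g4, ev_mul, ev_C, ev_C, eval_X, mul_div_cancel_left₀ _ hne]
  -- the conditions
  have hcond : ∀ C' ∈ Cs, ∀ᶠ i in (U : Filter ℕ), ∀ x' t : ZMod (p i), ev x' t (Lf h i) = 0 →
      (d i).eval x' ≠ 0 → CO p H E hEH ρ i (z i x' t) C' := by
    intro C' hC'
    have hsub : ∀ a ∈ els hEH C', a ∈ ls := by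
      intro a ha
      rw [hls]
      exact List.mem_cons_of_mem _ (List.mem_flatMap.2 ⟨C', hC', ha⟩)
    rcases C' with ⟨a, b⟩ | ⟨a, b⟩ | e
    · have ha := hSp a (hsub a (by simp [els]))
      have hb := hSp b (hsub b (by simp [els]))
      have hab := hSp (a + b) (hsub (a + b) (by simp [els]))
      have h1 := hrel (Sp (a + b)) (Sp a + Sp b) (by
        rw [← hab, Polynomial.map_add, ev_add, ← ha, ← hb]
        push_cast
        ring)
      filter_upwards [h1, haddE (Sp a) (Sp b)] with i g1 g2 x' t h0 hne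
      show z i x' t (a + b) = z i x' t a + z i x' t b
      rw [hz, hz, hz, g1 x' t h0, g2, ev_add, add_div]
    · have ha := hSp a (hsub a (by simp [els]))
      have hb := hSp b (hsub b (by simp [els]))
      have hab := hSp (a * b) (hsub (a * b) (by simp [els]))
      have h1 := hrel (C D * Sp (a * b)) (Sp a * Sp b) (by
        rw [Polynomial.map_mul, ev_mul, hevx, ← hab, Polynomial.map_mul, ev_mul, ← ha, ← hb]
        push_cast
        ring)
      filter_upwards [h1, hmulE (Sp a) (Sp b), hmulE (C D) (Sp (a * b)), hd1] with i g1 g2 g3 g4 x' t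
        h0 hne
      show z i x' t (a * b) = z i x' t a * z i x' t b
      have g5 := g1 x' t h0
      rw [g2, g3, g4, ev_mul, ev_mul, ev_C] at g5
      rw [hz, hz, hz, div_mul_div_comm, ← g5, mul_div_mul_left _ _ hne]
    · have he := hSp ⟨(e : UF p U), hEH e.2⟩ (hsub _ (by simp [els]))
      have h1 := hrel (Sp ⟨(e : UF p U), hEH e.2⟩) (C D * C (C e)) (by
        rw [← he, Polynomial.map_mul, ev_mul, hevx, hevx, map_C, eval_C]
        rfl)
      have h3 : ∀ᶠ i in (U : Filter ℕ), Lf (C (C e)) i = C (C (ρ e i)) := by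
        apply lift_unique p U hL hB hp (C (C (τ e))) _ _ _
          (lift_CC p U hB hp (ρ e) (τ e) (hρ e))
        have := hLf (C (C e))
        rw [Polynomial.map_C, coe_mapRingHom, Polynomial.map_C] at this
        exact this
      filter_upwards [h1, hmulE (C D) (C (C e)), h3, hd1] with i g1 g2 g3 g4 x' t h0 hne
      show z i x' t ⟨(e : UF p U), hEH e.2⟩ = ρ e i
      rw [hz, g1 x' t h0, g2, g3, g4, ev_mul, ev_C, ev_C, eval_C, mul_div_cancel_left₀ _ hne]
  have hcond2 : ∀ᶠ i in (U : Filter ℕ), ∀ C' ∈ Cs, ∀ x' t : ZMod (p i), ev x' t (Lf h i) = 0 →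
      (d i).eval x' ≠ 0 → CO p H E hEH ρ i (z i x' t) C' := by
    have h1 : ∀ l : List (CI H E), (∀ C' ∈ l, ∀ᶠ i in (U : Filter ℕ), ∀ x' t : ZMod (p i),
        ev x' t (Lf h i) = 0 → (d i).eval x' ≠ 0 → CO p H E hEH ρ i (z i x' t) C') →
        ∀ᶠ i in (U : Filter ℕ), ∀ C' ∈ l, ∀ x' t : ZMod (p i), ev x' t (Lf h i) = 0 →
          (d i).eval x' ≠ 0 → CO p H E hEH ρ i (z i x' t) C' := by
      intro l
      induction l with
      | nil => exact fun _ => Filter.Eventually.of_forall fun i C' h => absurd h List.not_mem_nil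
      | cons a l ih =>
        intro hl
        filter_upwards [hl a List.mem_cons_self, ih fun C' h => hl C' (List.mem_cons_of_mem _ h)]
          with i g1 g2 C' hC'
        rcases List.mem_cons.1 hC' with rfl | hC'
        · exact g1
        · exact g2 C' hC'
    exact h1 Cs hcond
  -- the count
  refine ⟨2 * c, ?_⟩
  filter_upwards [hc, hd1, hd0, hX, hcond2, hp (2 * c * B)] with i g1 g2 g3 g4 g5 g6
  have : NeZero (p i) := ⟨(Fact.out : (p i).Prime).ne_zero⟩
  set T : Set (ZMod (p i)) := {x' : ZMod (p i) |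
    ∃ z : H → ZMod (p i), z ⟨x, hx⟩ = x' ∧ ∀ C ∈ Cs, CO p H E hEH ρ i z C} with hT
  have hdi : d i ≠ 0 := by
    intro h0
    apply g3
    rw [g2, h0, C_0]
  have hsub : {x' : ZMod (p i) | ∃ t, ev x' t (Lf h i) = 0} ⊆
      ((d i).roots.toFinset : Set (ZMod (p i))) ∪ T := by
    rintro x' ⟨t, ht⟩
    by_cases h0 : (d i).eval x' = 0
    · left
      rw [Finset.mem_coe, Multiset.mem_toFinset, mem_roots hdi]
      exact h0
    · right
      exact ⟨z i x' t, g4 x' t ht h0, fun C' hC' => g5 C' hC' x' t ht h0⟩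
  have hroots : ((d i).roots.toFinset : Set (ZMod (p i))).ncard ≤ B := by
    rw [Set.ncard_coe_finset]
    exact (Multiset.toFinset_card_le _).trans ((card_roots' _).trans ((hBd i).2 0))
  have h7 : {x' : ZMod (p i) | ∃ t, ev x' t (Lf h i) = 0}.ncard ≤ B + T.ncard :=
    (Set.ncard_le_ncard hsub (Set.toFinite _)).trans ((Set.ncard_union_le _ _).trans
      (Nat.add_le_add_right hroots _))
  have h8 : p i ≤ c * (B + T.ncard) := g1.trans (Nat.mul_le_mul_left _ h7)
  nlinarith [h8, g6]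

theorem xt1 (hF : FinStmt) (hA : AbsStmt) (hL : LftStmt) (hW : WtrStmt) (hB : BasStmt) :
    Xt1Stmt := by
  intro p _ U hp K1 K2 θ hPI x hxf hxK hx hEH ρ hρ Cs
  obtain ⟨iac, icz, -, -, -, -, e0, -⟩ := hB p U hp
  have hst : ∀ a ∈ K1, Ph p U a ∈ K1 := fun a ha => (hPI.st ⟨a, ha⟩).1
  obtain ⟨h, D, s, γ, hm, hd, hD, hγ, hev, hs, hirr, hdiv⟩ :=
    hF (UF p U) (Ph p U) K1 hst hPI.cl1 x hxf hxK
      (List.length ((⟨x, hx⟩ : ↥(hhx (Ph p U) K1 x)) :: Cs.flatMap (els hEH)))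
      (fun j => ((((⟨x, hx⟩ : ↥(hhx (Ph p U) K1 x)) :: Cs.flatMap (els hEH)).get j :
        ↥(hhx (Ph p U) K1 x)) : UF p U))
      (fun j => (((⟨x, hx⟩ : ↥(hhx (Ph p U) K1 x)) :: Cs.flatMap (els hEH)).get j).2)
  have hirr2 : Irreducible (h.map (mapRingHom (tau p U θ))) := by
    have := closed_sub K2 hPI.cl2
    have h1 := irr_equiv θ _ hirr
    have h2 := hA K2 (UF p U) _ ((hm.map _).map _) h1
    rw [Polynomial.map_map, Polynomial.map_map] at h2
    have h3 : ((mapRingHom (algebraMap K2 (UF p U))).comp (mapRingHom (θ : K1 →+* K2))).comp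
        (mapRingHom (Subfield.inclusion (inf_le_left : K1 ⊓ fixs (Ph p U) ≤ K1))) =
        mapRingHom (tau p U θ) := by
      rw [mapRingHom_comp, mapRingHom_comp]
      rfl
    rw [← h3]
    exact h2
  exact core hL hW hB p U hp (K1 ⊓ fixs (Ph p U)) (hhx (Ph p U) K1 x) hEH (tau p U θ)
    (tau_fix p U θ hPI) ρ hρ x hx Cs _ rfl h D s γ hm hd hD hs hirr2 hdiv

end Pool.Agent.FHQ.H14
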